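import Pool.Agent.Helper69.TPF.St3

/-!
Project TPF, module TAU: the standard tuple.
-/

set_option autoImplicit false

namespace Pool.Agent.Helper84.TPF

open Pool.Agent.Helper69.TPF Pool.Agent.Helper6.TS

theorem cTAU (del : St_DEL) : St_TAU := by
  intro g t D v α' β' x' y' hP hα hβ hx hy
  have hv : ∀ s, D.a01 (v s) = tgt t 1 s ∧ D.a02 (v s) = tgt t 2 s := hP
  have ht : ∀ (l : Fin 3) (s : Fin g), t s ≠ l → tgt t l s = 1 := by
    intro l s h
    rw [tgt, dif_neg h]
  have key : ∀ q : Fin g × Bool, ∃ k : Surf g,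
      (q.2 = false → D.f0 k = 1 ∧ (t q.1 ≠ 2 → D.f1 k = α' q.1 ∧ D.f2 k = 1) ∧
        (t q.1 = 2 → D.f1 k = 1 ∧ D.f2 k = β' q.1)) ∧
      (q.2 = true → D.f0 k = v q.1 ∧ (t q.1 ≠ 2 → D.f1 k = 1 ∧ D.f2 k = y' q.1) ∧
        (t q.1 = 2 → D.f1 k = x' q.1 ∧ D.f2 k = 1)) := by
    rintro ⟨s, b⟩
    dsimp only
    by_cases h2 : t s = 2
    · have h1 : tgt t 1 s = 1 := ht 1 s (by rw [h2]; decide)
      cases b with
      | false =>
        obtain ⟨k, k1, k2, k0⟩ := del g t D 1 (β' s) 1 (by rw [map_one, map_one])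
          (by rw [hβ, map_one])
        exact ⟨k, fun _ => ⟨k0, fun h => absurd h2 h, fun _ => ⟨k1, k2⟩⟩,
          fun h => absurd h (by decide)⟩
      | true =>
        obtain ⟨k, k1, k2, k0⟩ := del g t D (x' s) 1 (v s) (by rw [hx, (hv s).2])
          (by rw [map_one, (hv s).1, h1])
        exact ⟨k, fun h => absurd h (by decide),
          fun _ => ⟨k0, fun h => absurd h2 h, fun _ => ⟨k1, k2⟩⟩⟩
    · have h1 : tgt t 2 s = 1 := ht 2 s h2
      cases b with
      | false =>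
        obtain ⟨k, k1, k2, k0⟩ := del g t D (α' s) 1 1 (by rw [hα, map_one])
          (by rw [map_one, map_one])
        exact ⟨k, fun _ => ⟨k0, fun _ => ⟨k1, k2⟩, fun h => absurd h h2⟩,
          fun h => absurd h (by decide)⟩
      | true =>
        obtain ⟨k, k1, k2, k0⟩ := del g t D 1 (y' s) (v s) (by rw [map_one, (hv s).2, h1])
          (by rw [hy, (hv s).1])
        exact ⟨k, fun h => absurd h (by decide),
          fun _ => ⟨k0, fun _ => ⟨k1, k2⟩, fun h => absurd h h2⟩⟩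
  choose T hF hT using key
  refine ⟨T, ?_, ?_, ?_⟩
  · intro s
    exact ⟨(hF (s, false) rfl).1, (hT (s, true) rfl).1⟩
  · intro s hs
    have a := (hF (s, false) rfl).2.1 hs
    have b := (hT (s, true) rfl).2.1 hs
    exact ⟨a.1, a.2, b.1, b.2⟩
  · intro s hs
    have a := (hF (s, false) rfl).2.2 hs
    have b := (hT (s, true) rfl).2.2 hs
    exact ⟨a.1, a.2, b.1, b.2⟩

end Pool.Agent.Helper84.TPF
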